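import Mathlib
import Pool.Agent.H541R3.ART.Irr

/-!
# Parity of multiplicities for groups with a normal 2-complement

Let `N` be a normal subgroup of odd order of the finite group `G` such that `G / N` is a 2-group and
let `H` be a subgroup of odd order. If `χ` is a real-valued irreducible character of `G` which
contains the trivial character of `H` with odd multiplicity, then `χ` is a quadratic character.
-/

set_option autoImplicit false

namespace Q112PP

open Pool.Agent.H541R3.ART

/-- There are no stable subspaces. -/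
def Simple {G : Type} [Group G] {V : Type} [AddCommGroup V] [Module ℂ V]
    (ρ : Representation ℂ G V) : Prop :=
  ∀ U : Submodule ℂ V, (∀ g, ∀ u ∈ U, ρ g u ∈ U) → U = ⊥ ∨ U = ⊤

section general

variable {G : Type} [Group G] {V : Type} [AddCommGroup V] [Module ℂ V]

lemma simple_of_irreducible {ρ : Representation ℂ G V} (h : ρ.IsIrreducible) : Simple ρ := by
  intro U hU
  let S : Subrepresentation ρ := ⟨U, fun g u hu => hU g u hu⟩
  rcases h.eq_bot_or_eq_top S with h1 | h1
  · left
    exact congrArg Subrepresentation.toSubmodule h1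
  · right
    exact congrArg Subrepresentation.toSubmodule h1

lemma irreducible_of_simple [Nontrivial V] {ρ : Representation ℂ G V} (h : Simple ρ) :
    ρ.IsIrreducible := by
  have hne : Nontrivial (Subrepresentation ρ) := by
    refine ⟨⊥, ⊤, fun h1 => ?_⟩
    have h2 : (⊥ : Submodule ℂ V) = ⊤ := congrArg Subrepresentation.toSubmodule h1
    exact bot_ne_top h2
  refine { exists_pair_ne := hne.exists_pair_ne, eq_bot_or_eq_top := fun S => ?_ }
  rcases h S.toSubmodule (fun g u hu => S.apply_mem_toSubmodule g hu) with h1 | h1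
  · left
    exact Subrepresentation.toSubmodule_injective h1
  · right
    exact Subrepresentation.toSubmodule_injective h1

lemma nontrivial_of_irreducible {ρ : Representation ℂ G V} (h : ρ.IsIrreducible) :
    Nontrivial V := by
  by_contra hV
  rw [not_nontrivial_iff_subsingleton] at hV
  obtain ⟨x, y, hxy⟩ := h.exists_pair_ne
  exact hxy (Subrepresentation.toSubmodule_injective (Subsingleton.elim _ _))

end general

section dual

variable {G : Type} [Group G]

/-- The dual of an irreducible character is irreducible. -/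
lemma irr_dual {χ : G → ℂ} (hχ : χ ∈ Irr G) : (fun g => χ g⁻¹) ∈ Irr G := by
  obtain ⟨n, ρ, hρ, rfl⟩ := hχ
  have hs := simple_of_irreducible hρ
  have hV := nontrivial_of_irreducible hρ
  have hfr : Module.finrank ℂ (Module.Dual ℂ (Fin n → ℂ)) = n := by
    rw [Subspace.dual_finrank_eq, Module.finrank_fin_fun]
  let e : Module.Dual ℂ (Fin n → ℂ) ≃ₗ[ℂ] (Fin n → ℂ) :=
    LinearEquiv.ofFinrankEq _ _ (by rw [hfr, Module.finrank_fin_fun])
  let σ : Representation ℂ G (Fin n → ℂ) :=
    { toFun := fun g => e.toLinearMap ∘ₗ (ρ.dual g) ∘ₗ e.symm.toLinearMap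
      map_one' := by
        refine LinearMap.ext fun v => ?_
        show e (ρ.dual 1 (e.symm v)) = v
        rw [map_one]
        exact e.apply_symm_apply v
      map_mul' := by
        intro g h
        refine LinearMap.ext fun v => ?_
        show e (ρ.dual (g * h) (e.symm v)) = e (ρ.dual g (e.symm (e (ρ.dual h (e.symm v)))))
        rw [map_mul, e.symm_apply_apply]
        rfl }
  have hσ : ∀ g, σ g = e.conj (ρ.dual g) := fun g => rfl
  refine ⟨n, σ, ?_, ?_⟩
  · refine irreducible_of_simple fun U hU => ?_
    let U' : Submodule ℂ (Module.Dual ℂ (Fin n → ℂ)) := U.comap e.toLinearMap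
    have hU' : ∀ g, ∀ f ∈ U', ρ.dual g f ∈ U' := by
      intro g f hf
      have h1 := hU g (e f) hf
      have h2 : σ g (e f) = e (ρ.dual g f) := by
        show e (ρ.dual g (e.symm (e f))) = _
        rw [e.symm_apply_apply]
      rw [h2] at h1
      exact h1
    have h3 := hs U'.dualCoannihilator (fun g v hv => by
      rw [Submodule.mem_dualCoannihilator] at hv ⊢
      intro f hf
      have h4 := hv _ (hU' g⁻¹ f hf)
      rw [Representation.dual_apply, inv_inv] at h4
      exact h4)
    have h5 : U' = ⊥ ∨ U' = ⊤ := by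
      rcases h3 with h3 | h3
      · right
        have h6 := Subspace.dualCoannihilator_dualAnnihilator_eq (W := U')
        rw [h3, Submodule.dualAnnihilator_bot] at h6
        exact h6.symm
      · left
        have h6 := Subspace.dualCoannihilator_dualAnnihilator_eq (W := U')
        rw [h3, Submodule.dualAnnihilator_top] at h6
        exact h6.symm
    rcases h5 with h5 | h5
    · left
      rw [eq_bot_iff]
      intro u hu
      have h6 : e.symm u ∈ U' := by
        show e (e.symm u) ∈ U
        rw [e.apply_symm_apply]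
        exact hu
      rw [h5, Submodule.mem_bot] at h6
      rw [Submodule.mem_bot]
      exact (LinearEquiv.map_eq_zero_iff _).1 h6
    · right
      rw [eq_top_iff]
      intro u _
      have h6 : e.symm u ∈ U' := by
        rw [h5]
        exact Submodule.mem_top
      have h7 : e (e.symm u) ∈ U := h6
      rwa [e.apply_symm_apply] at h7
  · funext g
    show ρ.character g⁻¹ = LinearMap.trace ℂ _ (σ g)
    rw [hσ, LinearMap.trace_conj']
    exact (Representation.char_dual (ρ := ρ) g).symm

end dual

section integral

/-- character values are integral -/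
lemma isIntegral_char {G : Type} [Group G] [Finite G] {V : Type} [AddCommGroup V] [Module ℂ V]
    [FiniteDimensional ℂ V] (ρ : Representation ℂ G V) (g : G) : IsIntegral ℤ (ρ.character g) := by
  have h0 : ρ.character g = LinearMap.trace ℂ V (ρ g) := rfl
  rw [h0, Module.End.trace_eq_sum_roots_charpoly_of_splits (IsAlgClosed.splits _)]
  refine IsIntegral.multiset_sum fun μ hμ => ?_
  have h1 : (LinearMap.charpoly (ρ g)).IsRoot μ := (Polynomial.mem_roots'.1 hμ).2
  have h2 := (Module.End.hasEigenvalue_iff_isRoot_charpoly (ρ g) μ).2 h1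
  obtain ⟨v, hv⟩ := h2.exists_hasEigenvector
  have h3 : ∀ k : ℕ, ρ (g ^ k) v = μ ^ k • v := by
    intro k
    induction k with
    | zero => simp
    | succ k ih =>
        rw [pow_succ', map_mul]
        show ρ g (ρ (g ^ k) v) = _
        rw [ih, map_smul, hv.apply_eq_smul, smul_smul, pow_succ]
  have h4 := h3 (Nat.card G)
  rw [pow_card_eq_one', map_one] at h4
  have h5 : μ ^ Nat.card G = 1 := by
    have h6 : (μ ^ Nat.card G - 1) • v = 0 := by
      rw [sub_smul, ← h4, one_smul]
      simp
    rcases smul_eq_zero.1 h6 with h7 | h7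
    · exact sub_eq_zero.1 h7
    · exact absurd h7 hv.2
  have h8 : IsIntegral ℤ (μ ^ Nat.card G) := by
    rw [h5]
    exact isIntegral_one
  exact IsIntegral.of_pow Nat.card_pos h8

/-- Parity of the multiplicity of the trivial character. -/
lemma parity_of_odd {H : Type} [Group H] [Finite H] (hodd : Odd (Nat.card H)) (c : H → ℂ)
    (hint : ∀ h, IsIntegral ℤ (c h)) (hinv : ∀ h, c h⁻¹ = c h) (n m : ℕ) (hn : c 1 = n)
    (hm : ∑ᶠ h : H, c h = m * Nat.card H) : (Even n ↔ Even m) := by
  classical
  have _ : Fintype H := Fintype.ofFinite H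
  rw [finsum_eq_sum_of_fintype] at hm
  let O := integralClosure ℤ ℂ
  let c' : H → O := fun h => ⟨c h, hint h⟩
  let π := Ideal.Quotient.mk (Ideal.span {(2 : O)})
  have h2 : π 2 = 0 := Ideal.Quotient.eq_zero_iff_mem.2 (Ideal.mem_span_singleton_self 2)
  have hsum : ∑ h ∈ Finset.univ.erase (1 : H), π (c' h) = 0 := by
    refine Finset.sum_involution (fun h _ => h⁻¹) ?_ ?_ ?_ ?_
    · intro h _
      have : c' h⁻¹ = c' h := Subtype.ext (hinv h)
      rw [this, ← two_mul, ← map_ofNat π 2, h2, zero_mul]
    · intro h hh _ hfix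
      apply (Finset.mem_erase.1 hh).1
      have h3 : h * h = 1 := by
        nth_rewrite 1 [← hfix]
        exact inv_mul_cancel h
      obtain ⟨k, hk⟩ := hodd
      have h4 : h ^ Nat.card H = 1 := pow_card_eq_one'
      rw [hk, pow_succ, pow_mul, pow_two, h3, one_pow, one_mul] at h4
      exact h4
    · intro h hh
      exact Finset.mem_erase.2 ⟨fun h1 => (Finset.mem_erase.1 hh).1 (inv_eq_one.1 h1),
        Finset.mem_univ _⟩
    · intro h _
      exact inv_inv h
  have hsum2 : ∑ h : H, c' h = (m : O) * (Nat.card H : O) := by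
    apply Subtype.ext
    push_cast
    exact hm
  have h3 : π (∑ h : H, c' h) = π (c' 1) := by
    rw [map_sum, ← Finset.add_sum_erase _ _ (Finset.mem_univ (1 : H)), hsum, add_zero]
  have h4 : c' 1 = (n : O) := Subtype.ext (by push_cast; exact hn)
  obtain ⟨k, hk⟩ := hodd
  have h5 : π ((n : O) - m) = 0 := by
    have h6 : (m : O) * (Nat.card H : O) = 2 * (m * k) + m := by
      rw [hk]
      push_cast
      ring
    rw [hsum2, h4, h6, map_add, map_mul, h2, zero_mul, zero_add] at h3
    rw [map_sub, h3, sub_self]
  obtain ⟨a, ha⟩ := Ideal.mem_span_singleton'.1 (Ideal.Quotient.eq_zero_iff_mem.1 h5)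
  -- `a` is an integer
  have h6 : (a : ℂ) = algebraMap ℚ ℂ (((n : ℚ) - m) / 2) := by
    have h7 := congrArg (algebraMap O ℂ) ha
    rw [map_mul, map_sub, map_natCast, map_natCast, map_ofNat] at h7
    rw [map_div₀, map_sub, map_natCast, map_natCast, map_ofNat, eq_div_iff two_ne_zero]
    exact h7
  have h7 : IsIntegral ℤ (((n : ℚ) - m) / 2) := by
    rw [← isIntegral_algebraMap_iff (algebraMap ℚ ℂ).injective, ← h6]
    exact a.2
  obtain ⟨z, hz⟩ := (IsIntegrallyClosed.isIntegral_iff (R := ℤ) (K := ℚ)).1 h7
  have h8 : (n : ℤ) - m = 2 * z := by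
    have h9 : (z : ℚ) = ((n : ℚ) - m) / 2 := by
      rw [← hz]
      simp
    have h10 : ((n : ℤ) - m : ℚ) = 2 * z := by
      rw [h9]
      push_cast
      ring
    exact_mod_cast h10
  rw [Nat.even_iff, Nat.even_iff]
  omega

end integral

end Q112PP
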