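import Mathlib
import Pool.Agent.Q112.PP.Par

/-!
# The parity formula for groups with a normal 2-complement
-/

set_option autoImplicit false

namespace Q112PP

open Pool.Agent.H541R3.ART

lemma simple_index_two {M : Type} [Group M] {V : Type} [AddCommGroup V] [Module ℂ V]
    [FiniteDimensional ℂ V] (ρ : Representation ℂ M V) (h : Simple ρ) (L : Subgroup M)
    (hL : L.index = 2) (hodd : Odd (Module.finrank ℂ V)) : Simple (ρ.comp L.subtype) := by
  intro U hU0
  have hU : ∀ x ∈ L, ∀ u ∈ U, ρ x u ∈ U := fun x hx u hu => hU0 ⟨x, hx⟩ u hu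
  obtain ⟨g, hg⟩ : ∃ g, g ∉ L := by
    by_contra hcon
    push Not at hcon
    have h1 : L = ⊤ := eq_top_iff.2 fun x _ => hcon x
    rw [h1, Subgroup.index_top] at hL
    omega
  have hmul : ∀ (x y : M) (v : V), ρ (x * y) v = ρ x (ρ y v) := fun x y v => by
    rw [map_mul]; rfl
  have hgg : ∀ v, ρ g (ρ g⁻¹ v) = v := fun v => by rw [← hmul, mul_inv_cancel, map_one]; rfl
  have hgg' : ∀ v, ρ g⁻¹ (ρ g v) = v := fun v => by rw [← hmul, inv_mul_cancel, map_one]; rfl
  let e : V ≃ₗ[ℂ] V := LinearEquiv.ofLinear (ρ g) (ρ g⁻¹) (LinearMap.ext hgg)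
    (LinearMap.ext hgg')
  let U' : Submodule ℂ V := U.map (e : V →ₗ[ℂ] V)
  have hmem : ∀ v, v ∈ U' ↔ ρ g⁻¹ v ∈ U := by
    intro v
    constructor
    · rintro ⟨u, hu, rfl⟩
      show ρ g⁻¹ (ρ g u) ∈ U
      rw [hgg']
      exact hu
    · intro hv
      exact ⟨ρ g⁻¹ v, hv, hgg v⟩
  have hgi : g⁻¹ ∉ L := fun h1 => hg (inv_mem_iff.1 h1)
  have h1 : ∀ x ∈ L, ∀ u ∈ U', ρ x u ∈ U' := by
    intro x hx u hu
    rw [hmem] at hu ⊢
    have h2 : ρ g⁻¹ (ρ x u) = ρ (g⁻¹ * x * g) (ρ g⁻¹ u) := by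
      rw [← hmul, ← hmul]
      congr 2
      group
    rw [h2]
    refine hU _ ?_ _ hu
    rw [Subgroup.mul_mem_iff_of_index_two hL, Subgroup.mul_mem_iff_of_index_two hL]
    tauto
  have h2 : ∀ x ∉ L, ∀ u ∈ U, ρ x u ∈ U' := by
    intro x hx u hu
    rw [hmem, ← hmul]
    refine hU _ ?_ _ hu
    rw [Subgroup.mul_mem_iff_of_index_two hL]
    tauto
  have h3 : ∀ x ∉ L, ∀ u ∈ U', ρ x u ∈ U := by
    intro x hx u hu
    rw [hmem] at hu
    have h4 : ρ x u = ρ (x * g) (ρ g⁻¹ u) := by
      rw [← hmul]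
      congr 2
      group
    rw [h4]
    refine hU _ ?_ _ hu
    rw [Subgroup.mul_mem_iff_of_index_two hL]
    tauto
  have hsup := h (U ⊔ U') (by
    intro x u hu
    obtain ⟨u₁, hu₁, u₂, hu₂, rfl⟩ := Submodule.mem_sup.1 hu
    rw [map_add]
    by_cases hx : x ∈ L
    · exact Submodule.add_mem_sup (hU x hx _ hu₁) (h1 x hx _ hu₂)
    · rw [add_comm]
      exact Submodule.add_mem_sup (h3 x hx _ hu₂) (h2 x hx _ hu₁))
  have hinf := h (U ⊓ U') (by
    intro x u hu
    by_cases hx : x ∈ L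
    · exact ⟨hU x hx _ hu.1, h1 x hx _ hu.2⟩
    · exact ⟨h3 x hx _ hu.2, h2 x hx _ hu.1⟩)
  rcases hinf with hinf | hinf
  · rcases hsup with hsup | hsup
    · left
      exact le_bot_iff.1 (hsup ▸ le_sup_left)
    · exfalso
      have h4 := Submodule.finrank_sup_add_finrank_inf_eq U U'
      have h5 : Module.finrank ℂ U' = Module.finrank ℂ U := LinearEquiv.finrank_map_eq e U
      rw [hsup, hinf, finrank_top, finrank_bot, h5, add_zero] at h4
      rw [h4] at hodd
      obtain ⟨k, hk⟩ := hodd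
      omega
  · right
    exact top_le_iff.1 (hinf ▸ inf_le_left)

lemma exists_index_two {M : Type} [Group M] [Finite M] (N : Subgroup M) [N.Normal]
    (hp : IsPGroup 2 (M ⧸ N)) (hne : N ≠ ⊤) : ∃ L : Subgroup M, N ≤ L ∧ L.index = 2 := by
  have _ : Fact (Nat.Prime 2) := ⟨Nat.prime_two⟩
  obtain ⟨k, hk⟩ := IsPGroup.iff_card.1 hp
  have hk0 : k ≠ 0 := by
    rintro rfl
    rw [pow_zero] at hk
    apply hne
    have h1 : N.index = 1 := by rw [Subgroup.index_eq_card]; exact hk
    exact Subgroup.index_eq_one.1 h1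
  obtain ⟨j, rfl⟩ := Nat.exists_eq_succ_of_ne_zero hk0
  obtain ⟨K, hK⟩ := Sylow.exists_subgroup_card_pow_prime (G := M ⧸ N) 2 (n := j)
    (by rw [hk]; exact pow_dvd_pow 2 (Nat.le_succ j))
  refine ⟨K.comap (QuotientGroup.mk' N), ?_, ?_⟩
  · intro x hx
    rw [Subgroup.mem_comap, QuotientGroup.mk'_apply, (QuotientGroup.eq_one_iff x).2 hx]
    exact K.one_mem
  · rw [Subgroup.index_comap_of_surjective _ (QuotientGroup.mk'_surjective N)]
    have h1 := K.card_mul_index
    rw [hK, hk, pow_succ] at h1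
    exact Nat.eq_of_mul_eq_mul_left (by positivity) h1

theorem finrank_eq_one (k : ℕ) : ∀ (M : Type) [Group M] [Finite M] (N : Subgroup M) [N.Normal]
    (V : Type) [AddCommGroup V] [Module ℂ V] [FiniteDimensional ℂ V] (ρ : Representation ℂ M V),
    Nat.card M = k → IsPGroup 2 (M ⧸ N) → (∀ x ∈ N, ρ x = 1) → Simple ρ →
    Odd (Module.finrank ℂ V) → Module.finrank ℂ V = 1 := by
  induction k using Nat.strong_induction_on with
  | _ k ih =>
    intro M _ _ N _ V _ _ _ ρ hk hp htriv hs hodd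
    by_cases hN : N = ⊤
    · obtain ⟨v, hv⟩ : ∃ v : V, v ≠ 0 := by
        have : 0 < Module.finrank ℂ V := hodd.pos
        have _ := Module.finrank_pos_iff.1 this
        exact exists_ne 0
      rcases hs (Submodule.span ℂ {v}) (fun g u hu => by
        rw [htriv g (hN ▸ Subgroup.mem_top g)]
        exact hu) with h1 | h1
      · rw [Submodule.span_singleton_eq_bot] at h1
        exact absurd h1 hv
      · rw [← finrank_top, ← h1, finrank_span_singleton hv]
    · obtain ⟨L, hNL, hL⟩ := exists_index_two N hp hN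
      have hcard : Nat.card L < k := by
        have h1 := L.card_mul_index
        rw [hL, hk] at h1
        have : 0 < Nat.card L := Nat.card_pos
        omega
      have hpL : IsPGroup 2 (L ⧸ N.subgroupOf L) := by
        refine IsPGroup.of_injective hp (QuotientGroup.map (N.subgroupOf L) N L.subtype le_rfl) ?_
        rw [injective_iff_map_eq_one]
        intro x
        induction x using QuotientGroup.induction_on with | _ x => ?_
        intro hx
        have h1 : ((x : M) : M ⧸ N) = 1 := hx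
        rw [QuotientGroup.eq_one_iff] at h1
        rw [QuotientGroup.eq_one_iff, Subgroup.mem_subgroupOf]
        exact h1
      exact ih _ hcard L (N.subgroupOf L) V (ρ.comp L.subtype) rfl hpL
        (fun x hx => htriv x hx) (simple_index_two ρ hs L hL hodd) hodd

section main

variable {G : Type} [Group G] [Finite G]

/-- A real-valued irreducible character which contains the trivial character of a subgroup `H` of odd
order with odd multiplicity is quadratic. -/
theorem quadratic_of_odd (N : Subgroup G) [N.Normal] (hN : Odd (Nat.card N))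
    (hp : IsPGroup 2 (G ⧸ N)) {χ : G → ℂ} (hχ : χ ∈ Irr G) (hreal : ∀ g, χ g⁻¹ = χ g)
    (H : Subgroup G) (hH : Odd (Nat.card H)) (m : ℕ)
    (hm : ∑ᶠ h : H, χ h = m * Nat.card H) (hmodd : Odd m) :
    ∃ ψ : G →* ℤˣ, χ = fun g => (((ψ g : ℤˣ) : ℤ) : ℂ) := by
  classical
  obtain ⟨m', hm'⟩ := exists_mult hχ N 1
  obtain ⟨n, ρ, hρ, rfl⟩ := hχ
  have hs := simple_of_irreducible hρ
  have hV := nontrivial_of_irreducible hρ
  have hint : ∀ g, IsIntegral ℤ (ρ.character g) := fun g => isIntegral_char ρ g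
  have h1 : ρ.character 1 = (n : ℂ) := by
    rw [Representation.char_one, Module.finrank_fin_fun]
  have hn : Odd n := by
    have := parity_of_odd hH (fun h : H => ρ.character h) (fun h => hint h)
      (fun h => hreal h) n m h1 hm
    rw [← Nat.not_even_iff_odd] at hmodd ⊢
    rwa [this]
  simp only [MonoidHom.one_apply, inv_one, Units.val_one, mul_one] at hm'
  have hm'odd : Odd m' := by
    have := parity_of_odd hN (fun h : N => ρ.character h) (fun h => hint h)
      (fun h => hreal h) n m' h1 hm'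
    rw [← Nat.not_even_iff_odd] at hn ⊢
    rwa [← this]
  -- the fixed vectors of `N`
  let F : Submodule ℂ (Fin n → ℂ) :=
    { carrier := {v | ∀ x ∈ N, ρ x v = v}
      add_mem' := fun {a b} ha hb x hx => by rw [map_add, ha x hx, hb x hx]
      zero_mem' := fun x _ => map_zero _
      smul_mem' := fun c v hv x hx => by rw [map_smul, hv x hx] }
  have hmul : ∀ (x y : G) (v : Fin n → ℂ), ρ (x * y) v = ρ x (ρ y v) := fun x y v => by
    rw [map_mul]; rfl
  have hF := hs F (fun g v hv x hx => by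
    have h2 : ρ x (ρ g v) = ρ g (ρ (g⁻¹ * x * g) v) := by
      rw [← hmul, ← hmul]
      congr 2
      group
    rw [h2]
    congr 1
    refine hv _ ?_
    have := (inferInstance : N.Normal).conj_mem x hx g⁻¹
    rwa [inv_inv] at this)
  have hFne : F ≠ ⊥ := by
    intro hbot
    have _ : Fintype N := Fintype.ofFinite N
    have he : (∑ h : N, ρ (h : G)) = 0 := by
      refine LinearMap.ext fun v => ?_
      have h3 : (∑ h : N, ρ (h : G)) v ∈ F := by
        intro x hx
        rw [LinearMap.sum_apply, map_sum]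
        have h4 : ∀ h : N, ρ x (ρ (h : G) v) = ρ (((⟨x, hx⟩ : N) * h : N) : G) v := fun h => by
          rw [← hmul]; rfl
        rw [Finset.sum_congr rfl fun h _ => h4 h]
        exact Fintype.sum_equiv (Equiv.mulLeft (⟨x, hx⟩ : N)) _ _ fun h => rfl
      rw [hbot, Submodule.mem_bot] at h3
      rw [h3]
      rfl
    have h5 : ∑ h : N, ρ.character (h : G) = 0 := by
      have h6 := congrArg (LinearMap.trace ℂ (Fin n → ℂ)) he
      rw [map_sum, map_zero] at h6
      exact h6
    rw [finsum_eq_sum_of_fintype, h5] at hm'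
    have h7 : (m' : ℂ) * (Nat.card N : ℂ) ≠ 0 :=
      mul_ne_zero (by exact_mod_cast hm'odd.pos.ne') (by exact_mod_cast Nat.card_pos.ne')
    exact h7 hm'.symm
  have hFtop : F = ⊤ := hF.resolve_left hFne
  have htriv : ∀ x ∈ N, ρ x = 1 := by
    intro x hx
    refine LinearMap.ext fun v => ?_
    have hv : v ∈ F := by rw [hFtop]; exact Submodule.mem_top
    exact hv x hx
  have hone : Module.finrank ℂ (Fin n → ℂ) = 1 :=
    finrank_eq_one _ G N (Fin n → ℂ) ρ rfl hp htriv hs (by rwa [Module.finrank_fin_fun])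
  -- the character is multiplicative
  have hscal : ∀ g, ∀ v, ρ g v = ρ.character g • v := by
    intro g v
    obtain ⟨c, hc⟩ : ∃ c : ℂ, ρ g = c • LinearMap.id := by
      obtain ⟨v₀, -, hspan⟩ := finrank_eq_one_iff'.1 hone
      obtain ⟨c, hc⟩ := hspan (ρ g v₀)
      refine ⟨c, LinearMap.ext fun u => ?_⟩
      obtain ⟨d, rfl⟩ := hspan u
      rw [map_smul, ← hc]
      show d • c • v₀ = c • d • v₀
      rw [smul_comm]
    have h8 : ρ.character g = c := by
      show LinearMap.trace ℂ _ (ρ g) = c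
      rw [hc, map_smul, LinearMap.trace_id, hone]
      simp
    rw [h8, hc]
    rfl
  obtain ⟨v, hv⟩ := exists_ne (0 : Fin n → ℂ)
  have hchar1 : ρ.character 1 = 1 := by
    have h9 := hscal 1 v
    rw [map_one] at h9
    have h10 : (ρ.character 1 - 1) • v = 0 := by
      rw [sub_smul, ← h9, one_smul]
      simp
    rcases smul_eq_zero.1 h10 with h11 | h11
    · exact sub_eq_zero.1 h11
    · exact absurd h11 hv
  have hcharmul : ∀ g h, ρ.character (g * h) = ρ.character g * ρ.character h := by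
    intro g h
    have h9 := hscal (g * h) v
    rw [hmul, hscal h v, map_smul, hscal g v, smul_smul] at h9
    have h10 : (ρ.character (g * h) - ρ.character h * ρ.character g) • v = 0 := by
      rw [sub_smul, ← h9, sub_self]
    rcases smul_eq_zero.1 h10 with h11 | h11
    · rw [sub_eq_zero.1 h11, mul_comm]
    · exact absurd h11 hv
  have hsq : ∀ g, ρ.character g = 1 ∨ ρ.character g = -1 := by
    intro g
    have h9 := hcharmul g g⁻¹
    rw [mul_inv_cancel, hchar1, hreal] at h9
    exact mul_self_eq_one_iff.1 h9.symm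
  refine ⟨{ toFun := fun g => if ρ.character g = 1 then 1 else -1,
            map_one' := by rw [if_pos hchar1],
            map_mul' := ?_ }, ?_⟩
  · intro g h
    have hne : (-1 : ℂ) ≠ 1 := by norm_num
    rcases hsq g with hg | hg <;> rcases hsq h with hh | hh <;>
      simp [hcharmul, hg, hh, hne]
  · funext g
    show ρ.character g = (((if ρ.character g = 1 then (1 : ℤˣ) else -1 : ℤˣ) : ℤ) : ℂ)
    have hne : (-1 : ℂ) ≠ 1 := by norm_num
    rcases hsq g with hg | hg
    · rw [if_pos hg, hg]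
      simp
    · rw [if_neg (by rw [hg]; exact hne), hg]
      simp

/-- The parity formula. -/
theorem parity_formula (N : Subgroup G) [N.Normal] (hN : Odd (Nat.card N))
    (hp : IsPGroup 2 (G ⧸ N)) (H : Subgroup G) (hH : Odd (Nat.card H)) (mult : (G → ℂ) → ℕ)
    (hmult : ∀ χ ∈ Irr G, ∑ᶠ h : H, χ h = mult χ * Nat.card H) (a : (G → ℂ) → ℕ)
    (ha : ∀ χ ∈ Irr G, a (fun g => χ g⁻¹) = a χ) (w : (G → ℂ) → ℂ)
    (hw : ∀ χ ∈ Irr G, w χ * w (fun g => χ g⁻¹) = 1)
    (hquad : ∀ ψ : G →* ℤˣ, w (fun g => (((ψ g : ℤˣ) : ℤ) : ℂ))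
      = (-1) ^ a (fun g => (((ψ g : ℤˣ) : ℤ) : ℂ))) :
    ∏ χ ∈ irrF G, w χ ^ mult χ = (-1) ^ ∑ χ ∈ irrF G, a χ * mult χ := by
  classical
  have hmult' : ∀ χ ∈ Irr G, mult (fun g => χ g⁻¹) = mult χ := by
    intro χ hχ
    have _ : Fintype H := Fintype.ofFinite H
    have h1 := hmult _ (irr_dual hχ)
    have h2 := hmult _ hχ
    rw [finsum_eq_sum_of_fintype] at h1 h2
    have h3 : ∑ h : H, χ ((h : G)⁻¹) = ∑ h : H, χ (h : G) :=
      Fintype.sum_equiv (Equiv.inv H) _ _ fun h => rfl
    rw [h3, h2] at h1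
    have h4 : (Nat.card H : ℂ) ≠ 0 := by exact_mod_cast Nat.card_pos.ne'
    exact_mod_cast (mul_right_cancel₀ h4 h1).symm
  have key : ∏ χ ∈ irrF G, (w χ ^ mult χ * (-1) ^ (a χ * mult χ)) = 1 := by
    refine Finset.prod_involution (fun χ _ => fun g => χ g⁻¹) ?_ ?_ ?_ ?_
    · intro χ hχ
      have hχ' := mem_irrF.1 hχ
      rw [hmult' χ hχ', ha χ hχ']
      have h1 : ((-1 : ℂ) ^ (a χ * mult χ)) * (-1) ^ (a χ * mult χ) = 1 := by
        rw [← mul_pow]
        norm_num
      calc w χ ^ mult χ * (-1) ^ (a χ * mult χ)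
            * (w (fun g => χ g⁻¹) ^ mult χ * (-1) ^ (a χ * mult χ))
          = (w χ * w (fun g => χ g⁻¹)) ^ mult χ
            * (((-1 : ℂ) ^ (a χ * mult χ)) * (-1) ^ (a χ * mult χ)) := by
            rw [mul_pow]
            ring
        _ = 1 := by rw [hw χ hχ', h1, one_pow, one_mul]
    · intro χ hχ hne hreal
      apply hne
      have hχ' := mem_irrF.1 hχ
      rcases Nat.even_or_odd (mult χ) with he | ho
      · obtain ⟨k, hk⟩ := he
        have h1 := hw χ hχ'
        rw [hreal] at h1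
        have h2 : w χ ^ mult χ = 1 := by
          rw [hk, ← two_mul, pow_mul, pow_two, h1, one_pow]
        have h3 : (-1 : ℂ) ^ (a χ * mult χ) = 1 := by
          rw [hk]
          exact Even.neg_one_pow ⟨a χ * k, by ring⟩
        rw [h2, h3, one_mul]
      · obtain ⟨ψ, hψ⟩ := quadratic_of_odd N hN hp hχ' (fun g => congrFun hreal g) H hH
          (mult χ) (hmult χ hχ') ho
        have h1 : w χ = (-1) ^ a χ := by
          rw [hψ]
          exact hquad ψ
        rw [h1, ← pow_mul, ← mul_pow]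
        norm_num
    · intro χ hχ
      exact mem_irrF.2 (irr_dual (mem_irrF.1 hχ))
    · intro χ hχ
      funext g
      show χ g⁻¹⁻¹ = χ g
      rw [inv_inv]
  rw [Finset.prod_mul_distrib, Finset.prod_pow_eq_pow_sum] at key
  have h1 : ((-1 : ℂ) ^ ∑ χ ∈ irrF G, a χ * mult χ) * (-1) ^ ∑ χ ∈ irrF G, a χ * mult χ = 1 := by
    rw [← mul_pow]
    norm_num
  exact mul_right_cancel₀ (b := (-1 : ℂ) ^ ∑ χ ∈ irrF G, a χ * mult χ)
    (pow_ne_zero _ (by norm_num)) (key.trans h1.symm)

end main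

end Q112PP
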